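import Pool.Agent.TS.Defs
import Pool.Agent.LD.L.Fld

/-!
# TS/A-Core: the group `NM` and the function `h` (paper section 7)

PLAN.  `φK`, `φF` embeddings, `J = stb φK ⊓ stb φF` open, of index `≤ n * n` (`Subgroup.index_inf_le`; the index of `stb φ` is the degree: `fr_of_mark` in LD/L/Fld), `NM = J.normalCore`: normal, of index `≤ (J.index)!` (`Subgroup.normalCore_eq_ker`: the kernel of the action on `GQ ⧸ J`;
index of the kernel = cardinality of the range `≤ Nat.card (Equiv.Perm (GQ ⧸ J))`), open (`Nice.core`, or: finite intersection of conjugates of an open subgroup).  `mark K = pc (stb φK)`, `stb φK ≥ NM ≥ N`, so it is in `RC (CN N n)` (index `= n`).  `mark_congr`: `mark K U` depends only on the action of the elements modulo `NM`: for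
`t`, `d` with `d⁻¹ * t ∈ NM` the marks at `zpowers t` and `zpowers d` agree: `NM` acts trivially on all embeddings (`NM ≤` all conjugates of `stb φK`), so `t • χ = χ ↔ d • χ = χ` (`fx_zpowers`).
-/

namespace Pool.Agent.TS

open NumberField IsDedekindDomain Pool.Agent.H73.DU Pool.Agent.H73.AL Pool.Agent.LD

private theorem core_idx (F : NF) (φ : F.F →+* AlgebraicClosure ℚ) :
    (stb φ).index = Module.finrank ℚ F.F := by
  have h3 := congrFun (mark_eq_pc F.F φ) ⊥
  rw [pc_bot, mark, pch_bot] at h3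
  have h4 := NumberField.Embeddings.card F.F (AlgebraicClosure ℚ)
  rw [← Nat.card_eq_fintype_card] at h4
  rw [h4] at h3
  have h5 : (Module.finrank ℚ F.F : ℤ) = ((stb φ).index : ℤ) := h3
  exact_mod_cast h5.symm

private theorem core_triv (F : NF) (φ : F.F →+* AlgebraicClosure ℚ) (J : Subgroup GQ)
    (hJ : J ≤ stb φ) (g : GQ) (hg : g ∈ J.normalCore) (χ : F.F →+* AlgebraicClosure ℚ) :
    g • χ = χ := by
  obtain ⟨h, rfl⟩ := trans_emb F.F φ χ
  have h1 : h⁻¹ * g * h⁻¹⁻¹ ∈ J := hg h⁻¹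
  rw [inv_inv] at h1
  have h2 : (h⁻¹ * g * h) • φ = φ := MulAction.mem_stabilizer_iff.1 (hJ h1)
  have h3 : g • h • φ = h • ((h⁻¹ * g * h) • φ) := by
    rw [mul_smul, mul_smul, smul_inv_smul]
  rw [h3, h2]

private theorem core_index (J : Subgroup GQ) (hJ : J.index ≠ 0) :
    J.normalCore.index ≤ J.index.factorial := by
  have hfin : J.FiniteIndex := ⟨hJ⟩
  have : Finite (GQ ⧸ J) := inferInstance
  rw [Subgroup.normalCore_eq_ker, Subgroup.index_ker]
  refine (Nat.card_le_card_of_injective _ Subtype.val_injective).trans ?_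
  rw [Nat.card_perm]
  exact le_rfl

private theorem core_open (J : Subgroup GQ) (hJ : IsOpen (J : Set GQ)) (hi : J.index ≠ 0) :
    IsOpen (J.normalCore : Set GQ) := by
  have hfin : J.FiniteIndex := ⟨hi⟩
  have h1 : IsClosed (J.normalCore : Set GQ) :=
    Subgroup.normalCore_isClosed J (J.isClosed_of_isOpen hJ)
  exact Subgroup.isOpen_of_isClosed_of_finiteIndex _ h1

theorem exists_NM (K F : NF) (n : ℕ) (hK : Module.finrank ℚ K.F = n)
    (hF : Module.finrank ℚ F.F = n) : ∃ NM : Subgroup GQ, NM.Normal ∧ IsOpen (NM : Set GQ) ∧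
      NM.index ≤ bM n ∧
      (∀ g ∈ NM, (∀ χ : K.F →+* AlgebraicClosure ℚ, g • χ = χ) ∧
        ∀ χ : F.F →+* AlgebraicClosure ℚ, g • χ = χ) := by
  obtain ⟨φK⟩ : Nonempty (K.F →+* AlgebraicClosure ℚ) := inferInstance
  obtain ⟨φF⟩ : Nonempty (F.F →+* AlgebraicClosure ℚ) := inferInstance
  have hiK : (stb φK).index = n := (core_idx K φK).trans hK
  have hiF : (stb φF).index = n := (core_idx F φF).trans hF
  have hn : n ≠ 0 := by
    rw [← hK]
    exact Module.finrank_pos.ne'
  have hK0 : (stb φK).index ≠ 0 := by rw [hiK]; exact hn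
  have hF0 : (stb φF).index ≠ 0 := by rw [hiF]; exact hn
  have hJ0 : (stb φK ⊓ stb φF).index ≠ 0 := Subgroup.index_inf_ne_zero hK0 hF0
  have hJle : (stb φK ⊓ stb φF).index ≤ n ^ 2 := by
    refine (Subgroup.index_inf_le (H := stb φK) (K := stb φF)).trans ?_
    rw [hiK, hiF, sq]
  have hJo : IsOpen ((stb φK ⊓ stb φF : Subgroup GQ) : Set GQ) := by
    rw [Subgroup.coe_inf]
    exact (stab_open K.F φK).inter (stab_open F.F φF)
  refine ⟨(stb φK ⊓ stb φF).normalCore, Subgroup.normalCore_normal _,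
    core_open _ hJo hJ0, (core_index _ hJ0).trans (Nat.factorial_le hJle), fun g hg =>
    ⟨core_triv K φK _ inf_le_left g hg, core_triv F φF _ inf_le_right g hg⟩⟩

/-- a field on whose embeddings `NM` acts trivially is the field of a subgroup over `NM` -/
theorem exists_over (NM : Subgroup GQ) (F : NF)
    (h : ∀ g ∈ NM, ∀ χ : F.F →+* AlgebraicClosure ℚ, g • χ = χ) :
    ∃ J : Subgroup GQ, IsOpen (J : Set GQ) ∧ NM ≤ J ∧ J.index = Module.finrank ℚ F.F ∧
      mark F.F = pc J := by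
  obtain ⟨ψ⟩ : Nonempty (F.F →+* AlgebraicClosure ℚ) := inferInstance
  exact ⟨stb ψ, stab_open F.F ψ, fun g hg => MulAction.mem_stabilizer_iff.2 (h g hg ψ),
    core_idx F ψ, mark_eq_pc F.F ψ⟩

theorem mark_congr (NM : Subgroup GQ) (F : NF)
    (h : ∀ g ∈ NM, ∀ χ : F.F →+* AlgebraicClosure ℚ, g • χ = χ) {t d : GQ}
    (ht : d⁻¹ * t ∈ NM) :
    mark F.F (Subgroup.zpowers t) = mark F.F (Subgroup.zpowers d) := by
  have h1 : ∀ χ : F.F →+* AlgebraicClosure ℚ, t • χ = d • χ := by
    intro χ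
    have h2 : (d⁻¹ * t) • χ = χ := h _ ht χ
    rw [mul_smul, inv_smul_eq_iff] at h2
    exact h2
  have h3 : fx (F.F →+* AlgebraicClosure ℚ) (Subgroup.zpowers t) =
      fx (F.F →+* AlgebraicClosure ℚ) (Subgroup.zpowers d) := by
    ext χ
    rw [fx_zpowers, fx_zpowers, h1 χ]
  unfold mark pch
  rw [h3]

end Pool.Agent.TS
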