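import Pool.Agent.TS.V.Sub

/-!
# TS/A-Lst: from spans to lists of fields

PLAN.  `AddSubgroup.closure_induction` (compare `P_lists` in H73/AL/Extract): generators `pc H`: the list `[F]` of `exists_nf H` (`EvV F`: `EvG V T H` for `F`, `ψ` with `stb ψ = H ≤ H`); zero functions: empty lists; sums: append; negatives: exchange.
-/

namespace Pool.Agent.TS

open NumberField IsDedekindDomain Pool.Agent.H73.DU Pool.Agent.H73.AL Pool.Agent.LD

theorem cl_lists {V T : Finset ℕ} {n B : ℕ} {f : Subgroup GQ → ℤ} (hf : f ∈ CL V T n B) :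
    ∃ X Y : List NF, (∀ F ∈ X ++ Y, n ∣ Module.finrank ℚ F.F ∧ Module.finrank ℚ F.F ≤ B ∧
      EvV V T F.F) ∧ ∀ U ∈ famT T,
        f U + (X.map fun F => mark F.F U).sum = (Y.map fun F => mark F.F U).sum := by
  unfold CL at hf
  induction hf using AddSubgroup.closure_induction with
  | mem f hf =>
    rcases hf with ⟨H, hH, hn, hB, hE, rfl⟩ | hf
    · obtain ⟨F, ψ, hψ, hm, hd⟩ := exists_nf H hH
      refine ⟨[], [F], ?_, ?_⟩
      · intro F' hF'
        simp only [List.nil_append, List.mem_singleton] at hF'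
        rw [hF', hd]
        exact ⟨hn, hB, hE F ψ hψ.le⟩
      · intro U _
        simp [hm]
    · refine ⟨[], [], ?_, ?_⟩
      · intro F' hF'
        simp at hF'
      · intro U hU
        simp [hf U hU]
  | zero =>
    refine ⟨[], [], ?_, ?_⟩
    · intro F' hF'
      simp at hF'
    · intro U _
      simp
  | add f f' _ _ h h' =>
    obtain ⟨A, B, h1, h2⟩ := h
    obtain ⟨A', B', h1', h2'⟩ := h'
    refine ⟨A ++ A', B ++ B', ?_, ?_⟩
    · intro J hJ
      simp only [List.mem_append] at hJ h1 h1'
      rcases hJ with (h | h) | (h | h)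
      · exact h1 J (Or.inl h)
      · exact h1' J (Or.inl h)
      · exact h1 J (Or.inr h)
      · exact h1' J (Or.inr h)
    · intro U hU
      rw [List.map_append, List.sum_append, List.map_append, List.sum_append, Pi.add_apply,
        ← h2 U hU, ← h2' U hU]
      ring
  | neg f _ h =>
    obtain ⟨A, B, h1, h2⟩ := h
    refine ⟨B, A, ?_, ?_⟩
    · intro J hJ
      simp only [List.mem_append] at hJ h1
      exact h1 J hJ.symm
    · intro U hU
      rw [Pi.neg_apply, ← h2 U hU]
      ring

end Pool.Agent.TS
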