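import Pool.Agent.TS.K.Kill
import Pool.Agent.TS.L.Com
import Pool.Agent.TS.L.Ext
import Pool.Agent.TS.F.Fld
import Pool.Agent.TS.V.V4
import Pool.Agent.TS.A.Core
import Pool.Agent.TS.A.Lst
import Pool.Agent.THF.L.SSc

/-!
# TS/A-Alg: Theorem TS (paper section 7)

PLAN.  `exists_TR (V ∪ T) K`: `F`; `exists_NM`; `exists_N`; `h = mark K - mark F ∈ RC (CN N n)` (`exists_over`, `N ≤ NM`).  For `U ∈ famT T`: `U = zpowers t`: `killer`: `EvG V T H`: odd mark; otherwise `pc_mod` for `K` and `F` (through `exists_over`): `h U ≡ h (zpowers (t ^ 2 ^ a))`, conjugate by `g` (`mark_cj`, THF/L/SSc),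
`mark_congr` with `d`, and `h (zpowers d) = 0` (`exists_TR` for `p ∈ V`, `zpowers d ≤ decomp`: `cj 1`).  `U` from `D_l`, `l ∈ T`: `h U = 0` (`exists_TR`).  `lemK` with `E = EvG V T` (`EvG.mono`, `EvG.cj`).  Then `MC (CN N n) (famT T) ⊔ RC {..} ≤ CL V T n (bC n)` (`AddSubgroup.closure_le`): `two_mem`, `idx2_mem` if there is
`p ∈ V` prime `∉ T`; if there is none, `EvG V T H` holds for all `H` (`EvV` is vacuous).  Subgroups over the open subgroup `N` are open; `H.index ≤ N.index` (`Subgroup.index_le_of_le`-type).  Lists: `cl_lists`.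
-/

namespace Pool.Agent.TS

open NumberField IsDedekindDomain Pool.Agent.HWR Pool.Agent.H73.DU Pool.Agent.H73.AL
  Pool.Agent.LD

private theorem al_open {N H : Subgroup GQ} (hN : IsOpen (N : Set GQ)) (h : N ≤ H) :
    IsOpen (H : Set GQ) := Subgroup.isOpen_mono h hN

private theorem al_idx {N H : Subgroup GQ} [N.FiniteIndex] (h : N ≤ H) : H.index ≤ N.index :=
  Nat.le_of_dvd (Nat.pos_of_ne_zero Subgroup.FiniteIndex.index_ne_zero)
    (Subgroup.index_dvd_of_le h)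

private theorem al_sub {V T : Finset ℕ} (hTp : ∀ p ∈ T, p.Prime) (h2 : 2 ∈ T) (N : Subgroup GQ)
    [N.FiniteIndex] (hNo : IsOpen (N : Set GQ)) (n B : ℕ) (hB : 4 * N.index ≤ B) :
    MC (CN N n) (famT T) ⊔ RC {H | H ∈ CN N n ∧ EvG V T H} ≤ CL V T n B := by
  have gen : ∀ H ∈ CN N n, EvG V T H → pc H ∈ CL V T n B := by
    intro H hH hE
    refine AddSubgroup.subset_closure (Or.inl ⟨H, al_open hNo hH.1, hH.2, ?_, hE, rfl⟩)
    have := al_idx hH.1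
    omega
  have triv : (¬ ∃ p ∈ V, p.Prime ∧ p ∉ T) → ∀ H : Subgroup GQ, EvG V T H := by
    intro hne H F ψ _ p hp hpp hpT
    exact absurd ⟨p, hp, hpp, hpT⟩ hne
  refine sup_le ?_ ?_
  · unfold MC
    rw [AddSubgroup.closure_le]
    rintro f (⟨H, hH, rfl⟩ | ⟨H, hH, ⟨Y, hY, hY2⟩, rfl⟩ | hf)
    · by_cases hne : ∃ p ∈ V, p.Prime ∧ p ∉ T
      · have := al_idx hH.1
        exact two_mem hTp h2 hne H (al_open hNo hH.1) (Dvd.dvd.mul_left hH.2 2) (by omega)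
      · exact AddSubgroup.zsmul_mem _ (gen H hH (triv hne H)) 2
    · by_cases hne : ∃ p ∈ V, p.Prime ∧ p ∉ T
      · have := al_idx hH.1
        exact idx2_mem hTp h2 hne H Y (al_open hNo hH.1) hY hY2 hH.2 (by omega)
      · exact gen H hH (triv hne H)
    · exact AddSubgroup.subset_closure (Or.inr hf)
  · unfold RC
    rw [AddSubgroup.closure_le]
    rintro f ⟨H, ⟨hH, hE⟩, rfl⟩
    exact gen H hH hE

private theorem al_two {NM : Subgroup GQ} (F : NF)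
    (h : ∀ g ∈ NM, ∀ χ : F.F →+* AlgebraicClosure ℚ, g • χ = χ) (t : GQ) (a : ℕ) :
    (2 : ℤ) ∣ mark F.F (Subgroup.zpowers t) - mark F.F (Subgroup.zpowers (t ^ 2 ^ a)) := by
  obtain ⟨J, hJo, -, -, hJm⟩ := exists_over NM F h
  have := (nice_rat ∅).fin hJo
  rw [hJm]
  exact pc_mod J t a

private theorem al_even {V T : Finset ℕ} (K F : NF) (NM : Subgroup GQ)
    (hFm : ∀ (p : ℕ) [Fact p.Prime], p ∈ V ∪ T → ∀ U : Subgroup GQ,
        (∃ a : GQ, cj a U ≤ decomp ℚ_[p] (emb p)) → mark K.F U = mark F.F U)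
    (hNMt : ∀ g ∈ NM, (∀ χ : K.F →+* AlgebraicClosure ℚ, g • χ = χ) ∧
        ∀ χ : F.F →+* AlgebraicClosure ℚ, g • χ = χ) (t : GQ) (a : ℕ) (p : ℕ)
    (hp : Fact p.Prime) (hpV : p ∈ V) (g d : GQ) (hd : d ∈ decomp ℚ_[p] (emb p))
    (hgd : d⁻¹ * (g⁻¹ * t ^ 2 ^ a * g) ∈ NM) :
    (2 : ℤ) ∣ (mark K.F - mark F.F) (Subgroup.zpowers t) := by
  have e1 : cj g (Subgroup.zpowers (t ^ 2 ^ a)) = Subgroup.zpowers (g⁻¹ * t ^ 2 ^ a * g) := by
    unfold cj
    rw [MonoidHom.map_zpowers]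
    simp
  have e2 : ∀ X : NF, (∀ g ∈ NM, ∀ χ : X.F →+* AlgebraicClosure ℚ, g • χ = χ) →
      mark X.F (Subgroup.zpowers (t ^ 2 ^ a)) = mark X.F (Subgroup.zpowers d) := by
    intro X hX
    rw [← Pool.Agent.THF.mark_cj X.F g, e1]
    exact mark_congr NM X hX hgd
  have e3 : mark K.F (Subgroup.zpowers d) = mark F.F (Subgroup.zpowers d) := by
    refine hFm p (Finset.mem_union_left _ hpV) _ ⟨1, ?_⟩
    rw [cj_one, Subgroup.zpowers_le]
    exact hd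
  have e4 := al_two K (fun g hg => (hNMt g hg).1) t a
  have e5 := al_two F (fun g hg => (hNMt g hg).2) t a
  have e6 := e2 K (fun g hg => (hNMt g hg).1)
  have e7 := e2 F (fun g hg => (hNMt g hg).2)
  rw [Pi.sub_apply]
  have e8 : mark K.F (Subgroup.zpowers t) - mark F.F (Subgroup.zpowers t) =
      (mark K.F (Subgroup.zpowers t) - mark K.F (Subgroup.zpowers (t ^ 2 ^ a))) -
      (mark F.F (Subgroup.zpowers t) - mark F.F (Subgroup.zpowers (t ^ 2 ^ a))) := by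
    rw [e6, e7, e3]
    ring
  rw [e8]
  exact dvd_sub e4 e5

theorem alg_ts {T : Finset ℕ} (V : Finset ℕ) (hTp : ∀ p ∈ T, p.Prime) (h2 : 2 ∈ T) (K : NF) :
    ∃ (F : NF) (A B : List NF), InfinitePlace.nrComplexPlaces F.F = 0 ∧
      Module.finrank ℚ F.F = Module.finrank ℚ K.F ∧ Rel T (K :: A) (F :: B) ∧
      ∀ X ∈ A ++ B, Module.finrank ℚ K.F ∣ Module.finrank ℚ X.F ∧
        Module.finrank ℚ X.F ≤ bC (Module.finrank ℚ K.F) ∧ EvV V T X.F := by
  classical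
  obtain ⟨F, hF0, hFn, hFm⟩ := exists_TR (V ∪ T) K
  obtain ⟨NM, hNMn, hNMo, hNMi, hNMt⟩ := exists_NM K F (Module.finrank ℚ K.F) rfl hFn
  obtain ⟨N, hNn, hNo, hNle, hNsq, hNi, hNu⟩ := exists_N (V := V) hTp h2 NM hNMo
  have hfin : N.FiniteIndex := (nice_rat T).finiteIndex hNo
  have hfinM : NM.FiniteIndex := (nice_rat T).finiteIndex hNMo
  have hh : mark K.F - mark F.F ∈ RC (CN N (Module.finrank ℚ K.F)) := by
    obtain ⟨JK, -, hJKN, hJKi, hJKm⟩ := exists_over NM K (fun g hg => (hNMt g hg).1)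
    obtain ⟨JF, -, hJFN, hJFi, hJFm⟩ := exists_over NM F (fun g hg => (hNMt g hg).2)
    refine AddSubgroup.sub_mem _ ?_ ?_
    · exact AddSubgroup.subset_closure ⟨JK, ⟨hNle.trans hJKN, by rw [hJKi]⟩, hJKm⟩
    · exact AddSubgroup.subset_closure ⟨JF, ⟨hNle.trans hJFN, by rw [hJFi, hFn]⟩, hJFm⟩
  have hU : ∀ U ∈ famT T, (2 : ℤ) ∣ (mark K.F - mark F.F) U ∨
      ∃ H : Subgroup GQ, N ≤ H ∧ EvG V T H ∧ ¬ (2 : ℤ) ∣ pc H U := by
    rintro U (⟨t, rfl⟩ | ⟨l, hl, a, hlT, hU⟩)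
    · obtain ⟨a, q, H, -, -, hNH, hodd, -, h | ⟨p, hp, hpV, hpT, g, d, hd, hgd⟩⟩ :=
        killer NM N hNo hNsq hNu t
      · exact Or.inr ⟨H, hNH, h, hodd⟩
      · exact Or.inl (al_even K F NM hFm hNMt t a p hp hpV g d hd hgd)
    · left
      rw [Pi.sub_apply, hFm l (Finset.mem_union_right _ hlT) U ⟨a, hU⟩, sub_self]
      exact dvd_zero _
  have hK := lemK N (Module.finrank ℚ K.F) (EvG V T) (fun H H' h h' => EvG.mono h' h)
    (fun H b h => EvG.cj h b) (famT T) hh hU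
  have hB : 4 * N.index ≤ bC (Module.finrank ℚ K.F) := by
    unfold bC
    refine Nat.mul_le_mul_left 4 (hNi.trans ?_)
    exact Nat.mul_le_mul hNMi (Nat.pow_le_pow_right (by norm_num) hNMi)
  obtain ⟨X, Y, hXY, hrel⟩ := cl_lists (al_sub hTp h2 N hNo (Module.finrank ℚ K.F)
    (bC (Module.finrank ℚ K.F)) hB hK)
  refine ⟨F, X, Y, hF0, hFn, ?_, fun Z hZ => hXY Z hZ⟩
  intro U hUT
  have h1 := hrel U hUT
  rw [Pi.sub_apply] at h1
  simp only [List.map_cons, List.sum_cons]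
  linarith

end Pool.Agent.TS
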